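import Mathlib

/-!
The real part of `L'/L(1/2, χ)` for a primitive Dirichlet character is determined by the
functional equation: it is `-(1/2) log q` plus one of two constants.
-/

set_option autoImplicit false

open Complex Filter Topology Set

namespace Pool.Agent.Q28.FE

variable {q : ℕ} [NeZero q]

lemma LFunction_conj (χ : DirichletCharacter ℂ q) (s : ℂ) (hs : s ≠ 1) :
    DirichletCharacter.LFunction χ⁻¹ ((starRingEnd ℂ) s) =
      (starRingEnd ℂ) (DirichletCharacter.LFunction χ s) := by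
  have hg_an : AnalyticOnNhd ℂ (fun z ↦ (starRingEnd ℂ)
      (DirichletCharacter.LFunction χ⁻¹ ((starRingEnd ℂ) z))) {1}ᶜ :=
    DifferentiableOn.analyticOnNhd
      (fun z hz ↦ (differentiableAt_conj_conj_iff.mpr <|
        DirichletCharacter.differentiableAt_LFunction _ _ (Or.inl <|
        (map_ne_one_iff _ (starRingEnd ℂ).injective).mpr hz)).differentiableWithinAt)
      isOpen_compl_singleton
  have hf_an : AnalyticOnNhd ℂ (DirichletCharacter.LFunction χ) {1}ᶜ :=
    DifferentiableOn.analyticOnNhd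
      (fun z hz ↦ (DirichletCharacter.differentiableAt_LFunction _ _
        (Or.inl hz)).differentiableWithinAt) isOpen_compl_singleton
  have hgz (z : ℂ) (hz : 1 < z.re) : (starRingEnd ℂ)
      (DirichletCharacter.LFunction χ⁻¹ ((starRingEnd ℂ) z)) = DirichletCharacter.LFunction χ z := by
    rw [DirichletCharacter.LFunction_eq_LSeries _ (by rwa [conj_re]),
      DirichletCharacter.LFunction_eq_LSeries _ hz, LSeries, LSeries, conj_tsum]
    refine tsum_congr fun n ↦ ?_
    rcases eq_or_ne n 0 with rfl | hn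
    · simp
    · rw [LSeries.term_of_ne_zero hn, LSeries.term_of_ne_zero hn, map_div₀,
        ← conj_cpow _ _ (by rw [natCast_arg]; positivity), conj_natCast,
        ← MulChar.star_apply']
      simp
  have heq : EqOn (fun z ↦ (starRingEnd ℂ)
      (DirichletCharacter.LFunction χ⁻¹ ((starRingEnd ℂ) z))) (DirichletCharacter.LFunction χ) {1}ᶜ :=
    hg_an.eqOn_of_preconnected_of_eventuallyEq hf_an
      (isConnected_compl_singleton_of_one_lt_rank (by simp) 1).isPreconnected
      (by norm_num : (2 : ℂ) ∈ _)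
      (eventuallyEq_of_mem
        ((isOpen_lt continuous_const continuous_re).mem_nhds (by norm_num)) hgz)
  simpa using congrArg (starRingEnd ℂ) (heq hs)

omit [NeZero q] in
lemma inv_even_iff (χ : DirichletCharacter ℂ q) : (χ⁻¹).Even ↔ χ.Even := by
  unfold DirichletCharacter.Even
  rw [MulChar.inv_apply_eq_inv', inv_eq_one]

omit [NeZero q] in
lemma gammaFactor_inv (χ : DirichletCharacter ℂ q) (s : ℂ) :
    DirichletCharacter.gammaFactor χ⁻¹ s = DirichletCharacter.gammaFactor χ s := by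
  by_cases h : χ.Even
  · rw [DirichletCharacter.Even.gammaFactor_def h, DirichletCharacter.Even.gammaFactor_def
      ((inv_even_iff χ).mpr h)]
  · have h' : ¬ (χ⁻¹).Even := fun h2 => h ((inv_even_iff χ).mp h2)
    simp [DirichletCharacter.gammaFactor, h, h']

lemma conj_half : (starRingEnd ℂ) (1 / 2 : ℂ) = 1 / 2 := by
  rw [map_div₀, map_one, Complex.conj_ofNat]

lemma differentiableAt_Gammaℝ {s : ℂ} (hs : 0 < s.re) : DifferentiableAt ℂ Gammaℝ s := by
  have h := (differentiable_Gammaℝ_inv s).inv (inv_ne_zero (Gammaℝ_ne_zero_of_re_pos hs))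
  refine h.congr_of_eventuallyEq (Eventually.of_forall fun z => ?_)
  simp

omit [NeZero q] in
/-- the gamma factor at `1/2` is differentiable and nonzero, and its logarithmic derivative is one
of two constants -/
lemma gamma_facts (χ : DirichletCharacter ℂ q) :
    DifferentiableAt ℂ (DirichletCharacter.gammaFactor χ) (1 / 2) ∧
    DirichletCharacter.gammaFactor χ (1 / 2) ≠ 0 ∧
    (logDeriv (DirichletCharacter.gammaFactor χ) (1 / 2) = logDeriv Gammaℝ (1 / 2) ∨
      logDeriv (DirichletCharacter.gammaFactor χ) (1 / 2) = logDeriv (fun s => Gammaℝ (s + 1)) (1 / 2)) ∧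
    (∀ᶠ s in 𝓝 (1 / 2 : ℂ), DirichletCharacter.gammaFactor χ s ≠ 0) := by
  by_cases h : χ.Even
  · have h1 : DirichletCharacter.gammaFactor χ = Gammaℝ := by
      funext s; exact DirichletCharacter.Even.gammaFactor_def h s
    rw [h1]
    refine ⟨differentiableAt_Gammaℝ (by norm_num), Gammaℝ_ne_zero_of_re_pos (by norm_num), Or.inl rfl, ?_⟩
    filter_upwards [(isOpen_lt continuous_const continuous_re).mem_nhds
      (show (1 / 2 : ℂ) ∈ {s : ℂ | 0 < s.re} by norm_num)] with s hs
    exact Gammaℝ_ne_zero_of_re_pos hs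
  · have h1 : DirichletCharacter.gammaFactor χ = fun s => Gammaℝ (s + 1) := by
      funext s; simp [DirichletCharacter.gammaFactor, h]
    rw [h1]
    refine ⟨?_, Gammaℝ_ne_zero_of_re_pos (by norm_num), Or.inr rfl, ?_⟩
    · have : DifferentiableAt ℂ Gammaℝ ((1 / 2 : ℂ) + 1) := differentiableAt_Gammaℝ (by norm_num)
      have h2 : DifferentiableAt ℂ (fun s : ℂ => s + 1) (1 / 2 : ℂ) := by fun_prop
      exact DifferentiableAt.comp (1 / 2 : ℂ) (g := Gammaℝ) (f := fun s : ℂ => s + 1) this h2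
    filter_upwards [(isOpen_lt continuous_const continuous_re).mem_nhds
      (show (1 / 2 : ℂ) ∈ {s : ℂ | 0 < s.re} by norm_num)] with s hs
    have hs' : 0 < s.re := hs
    exact Gammaℝ_ne_zero_of_re_pos (by simp; linarith)

/-- the derivative of `L(s, χ⁻¹)` at `1/2` -/
lemma deriv_inv (χ : DirichletCharacter ℂ q) (hχ : χ ≠ 1) :
    deriv (DirichletCharacter.LFunction χ⁻¹) (1 / 2) =
      (starRingEnd ℂ) (deriv (DirichletCharacter.LFunction χ) (1 / 2)) := by
  have h1 : DifferentiableAt ℂ (DirichletCharacter.LFunction χ) (1 / 2) :=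
    DirichletCharacter.differentiable_LFunction hχ _
  have h2 : HasDerivAt (fun z => (starRingEnd ℂ)
      (DirichletCharacter.LFunction χ ((starRingEnd ℂ) z)))
      ((starRingEnd ℂ) (deriv (DirichletCharacter.LFunction χ) (1 / 2))) (1 / 2) := by
    have h3 : HasDerivAt (DirichletCharacter.LFunction χ)
      (deriv (DirichletCharacter.LFunction χ) (1 / 2)) (1 / 2) := h1.hasDerivAt
    have h4 := h3.conj_conj
    rw [conj_half] at h4
    exact h4
  have h6 : DirichletCharacter.LFunction χ⁻¹ =ᶠ[𝓝 (1 / 2 : ℂ)] (fun z => (starRingEnd ℂ)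
      (DirichletCharacter.LFunction χ ((starRingEnd ℂ) z))) := by
    have h7 : ∀ᶠ z in 𝓝 (1 / 2 : ℂ), z ≠ 1 := by
      apply IsOpen.mem_nhds isOpen_ne
      norm_num
    filter_upwards [h7] with z hz
    have h8 := LFunction_conj χ ((starRingEnd ℂ) z) ((map_ne_one_iff _ (starRingEnd ℂ).injective).mpr hz)
    rw [Complex.conj_conj] at h8
    exact h8
  rw [h6.deriv_eq]
  exact h2.deriv

lemma val_inv (χ : DirichletCharacter ℂ q) :
    DirichletCharacter.LFunction χ⁻¹ (1 / 2) =
      (starRingEnd ℂ) (DirichletCharacter.LFunction χ (1 / 2)) := by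
  have h8 := LFunction_conj χ (1 / 2) (by norm_num)
  rw [conj_half] at h8
  exact h8

/-- **The real part of `L'/L(1/2, χ)`** for primitive `χ`. -/
theorem re_logDeriv (χ : DirichletCharacter ℂ q) (hχ : χ ≠ 1) (hp : χ.IsPrimitive)
    (h0 : DirichletCharacter.LFunction χ (1 / 2) ≠ 0) :
    (logDeriv (DirichletCharacter.LFunction χ) (1 / 2)).re =
      -(1 / 2) * Real.log q - (logDeriv (DirichletCharacter.gammaFactor χ) (1 / 2)).re := by
  obtain ⟨hGd, hG0, -, hGe⟩ := gamma_facts χ
  have hχi : χ⁻¹ ≠ 1 := fun h => hχ (inv_eq_one.mp h)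
  have hq1 : q ≠ 1 := fun h => hχ (DirichletCharacter.level_one' χ h)
  set L := DirichletCharacter.LFunction χ with hL
  set L' := DirichletCharacter.LFunction χ⁻¹ with hL'
  set G := DirichletCharacter.gammaFactor χ with hG
  have hLd : DifferentiableAt ℂ L (1 / 2) := DirichletCharacter.differentiable_LFunction hχ _
  have hLd' : DifferentiableAt ℂ L' (1 / 2) := DirichletCharacter.differentiable_LFunction hχi _
  -- the functional equation near `1/2`
  set W := DirichletCharacter.rootNumber χ with hW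
  have hcomp : ∀ (ψ : DirichletCharacter ℂ q) (s : ℂ), DirichletCharacter.gammaFactor ψ s ≠ 0 →
      DirichletCharacter.completedLFunction ψ s =
        DirichletCharacter.LFunction ψ s * DirichletCharacter.gammaFactor ψ s := by
    intro ψ s hs
    rw [DirichletCharacter.LFunction_eq_completed_div_gammaFactor ψ s (Or.inr hq1),
      div_mul_cancel₀ _ hs]
  have hFE : (fun s => L (1 - s) * G (1 - s)) =ᶠ[𝓝 (1 / 2 : ℂ)]
      (fun s => (q : ℂ) ^ (s - 1 / 2) * W * (L' s * G s)) := by
    have h1 : ∀ᶠ s in 𝓝 (1 / 2 : ℂ), G (1 - s) ≠ 0 := by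
      have h2 : Tendsto (fun s : ℂ => 1 - s) (𝓝 (1 / 2)) (𝓝 (1 / 2)) := by
        have : Continuous (fun s : ℂ => 1 - s) := by fun_prop
        have h3 := this.tendsto (1 / 2)
        have h4 : (1 : ℂ) - 1 / 2 = 1 / 2 := by norm_num
        rwa [h4] at h3
      exact h2.eventually hGe
    filter_upwards [h1, hGe] with s hs1 hs2
    have h3 := hp.completedLFunction_one_sub s
    rw [hcomp χ (1 - s) hs1, hcomp χ⁻¹ s (by rw [gammaFactor_inv]; exact hs2), gammaFactor_inv] at h3
    exact h3
  have hq0 : (q : ℂ) ≠ 0 := by exact_mod_cast NeZero.ne q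
  have hpow : HasDerivAt (fun s : ℂ => (q : ℂ) ^ (s - 1 / 2)) (Complex.log q) (1 / 2) := by
    have h1 : HasDerivAt (fun s : ℂ => s - 1 / 2) 1 (1 / 2) := (hasDerivAt_id _).sub_const _
    have h2 := h1.const_cpow (c := (q : ℂ)) (Or.inl hq0)
    simpa using h2
  -- values
  have hval := hFE.eq_of_nhds
  have hder := hFE.deriv_eq
  have hsub : HasDerivAt (fun s : ℂ => 1 - s) (-1) (1 / 2) := by
    simpa using (hasDerivAt_id (1 / 2 : ℂ)).const_sub 1
  have he : (1 : ℂ) - 1 / 2 = 1 / 2 := by norm_num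
  have hA : HasDerivAt (fun s => L (1 - s) * G (1 - s))
      (-(deriv L (1 / 2) * G (1 / 2) + L (1 / 2) * deriv G (1 / 2))) (1 / 2) := by
    have h1 : HasDerivAt L (deriv L (1 / 2)) (1 - 1 / 2) := by rw [he]; exact hLd.hasDerivAt
    have h2 : HasDerivAt G (deriv G (1 / 2)) (1 - 1 / 2) := by rw [he]; exact hGd.hasDerivAt
    have h4 : HasDerivAt (fun s => L (1 - s)) (deriv L (1 / 2) * (-1)) (1 / 2) :=
      h1.comp (1 / 2 : ℂ) hsub
    have h5 : HasDerivAt (fun s => G (1 - s)) (deriv G (1 / 2) * (-1)) (1 / 2) :=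
      h2.comp (1 / 2 : ℂ) hsub
    refine (h4.fun_mul h5).congr_deriv ?_
    simp only [he]
    ring
  have hB : HasDerivAt (fun s => (q : ℂ) ^ (s - 1 / 2) * W * (L' s * G s))
      (Complex.log q * W * (L' (1 / 2) * G (1 / 2)) +
        W * (deriv L' (1 / 2) * G (1 / 2) + L' (1 / 2) * deriv G (1 / 2))) (1 / 2) := by
    refine ((hpow.mul_const W).fun_mul (hLd'.hasDerivAt.fun_mul hGd.hasDerivAt)).congr_deriv ?_
    rw [sub_self, cpow_zero, one_mul]
  rw [hA.deriv, hB.deriv] at hder
  simp only [he, sub_self, cpow_zero, one_mul] at hval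
  -- `L' (1/2) = conj (L (1/2))`
  have hv : L' (1 / 2) = (starRingEnd ℂ) (L (1 / 2)) := val_inv χ
  have hd : deriv L' (1 / 2) = (starRingEnd ℂ) (deriv L (1 / 2)) := deriv_inv χ hχ
  have hL'0 : L' (1 / 2) ≠ 0 := by rw [hv]; simpa using h0
  have hWne : W ≠ 0 := by
    intro h
    rw [h, zero_mul] at hval
    exact mul_ne_zero h0 hG0 hval
  have hkey : -(deriv L (1 / 2) / L (1 / 2)) - deriv G (1 / 2) / G (1 / 2) =
      Complex.log q + deriv L' (1 / 2) / L' (1 / 2) + deriv G (1 / 2) / G (1 / 2) := by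
    have e1 : L (1 / 2) = W * L' (1 / 2) := by
      have := mul_right_cancel₀ hG0 (by rw [hval]; ring : L (1 / 2) * G (1 / 2) = (W * L' (1 / 2)) * G (1 / 2))
      exact this
    field_simp
    rw [e1] at hder ⊢
    have : W * (W * L' (1 / 2) * (Complex.log q * L' (1 / 2) * G (1 / 2) + deriv L' (1 / 2) * G (1 / 2) +
      L' (1 / 2) * deriv G (1 / 2))) = W * (L' (1 / 2) * (-(deriv L (1 / 2) * G (1 / 2) + W * L' (1 / 2) * deriv G (1 / 2)))) := by
      rw [hder]; ring
    have h9 := mul_left_cancel₀ hWne this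
    linear_combination (-1 : ℂ) * h9
  have hre := congrArg Complex.re hkey
  have e2 : deriv L' (1 / 2) / L' (1 / 2) = (starRingEnd ℂ) (deriv L (1 / 2) / L (1 / 2)) := by
    rw [hv, hd, map_div₀]
  rw [e2] at hre
  simp only [Complex.sub_re, Complex.neg_re, Complex.add_re, Complex.conj_re] at hre
  have e3 : (Complex.log (q : ℂ)).re = Real.log q := by
    rw [← Complex.natCast_log, Complex.ofReal_re]
  rw [e3] at hre
  rw [logDeriv_apply, logDeriv_apply]
  linarith

/-- For large `q` the real part of `L'/L(1/2, χ)` is negative. -/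
theorem re_neg : ∃ Q : ℕ, ∀ (q : ℕ) [NeZero q], Q ≤ q → ∀ χ : DirichletCharacter ℂ q, χ ≠ 1 →
    χ.IsPrimitive → DirichletCharacter.LFunction χ (1 / 2) ≠ 0 →
      (logDeriv (DirichletCharacter.LFunction χ) (1 / 2)).re ≤ 0 := by
  set a := |(logDeriv Gammaℝ (1 / 2)).re| with ha
  set b := |(logDeriv (fun s => Gammaℝ (s + 1)) (1 / 2)).re| with hb
  have hlim : Tendsto (fun n : ℕ => Real.log n) atTop atTop :=
    Real.tendsto_log_atTop.comp tendsto_natCast_atTop_atTop
  obtain ⟨Q, hQ⟩ := eventually_atTop.1 (hlim.eventually_ge_atTop (2 * (a + b)))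
  refine ⟨Q, fun q _ hq χ hχ hp h0 => ?_⟩
  rw [re_logDeriv χ hχ hp h0]
  have h1 := hQ q hq
  have ha0 : 0 ≤ a := abs_nonneg _
  have hb0 : 0 ≤ b := abs_nonneg _
  obtain ⟨-, -, h, -⟩ := gamma_facts χ
  have h2 : -(a + b) ≤ (logDeriv (DirichletCharacter.gammaFactor χ) (1 / 2)).re := by
    rcases h with h | h
    · rw [h]
      have := neg_abs_le (logDeriv Gammaℝ (1 / 2)).re
      linarith
    · rw [h]
      have := neg_abs_le (logDeriv (fun s => Gammaℝ (s + 1)) (1 / 2)).re
      linarith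
  linarith

end Pool.Agent.Q28.FE
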